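import Pool.Agent.J6H9.PL.Stm

/-!
# Module PL-GERM of project PL (helper9): the germ of a piecewise linear homeomorphism is a cone
-/

set_option autoImplicit false

open Filter Topology
open Pool.Agent.J6H45.CoordRestr
open Pool.Agent.J6H9.PL

namespace Pool.Agent.J6H35.PL

/-- continuous functions with locally finitely many affine values have germs with finitely many
linear values -/
theorem germ_sel {n : ℕ} {F : E n → E n} (hF : Continuous F) (h0 : F 0 = 0)
    {S : Set ((E n →L[ℝ] E n) × E n)} (hS : S.Finite)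
    (h : ∀ᶠ v in 𝓝 (0 : E n), ∃ T ∈ S, F v = T.1 v + T.2) :
    ∃ r : ℝ, 0 < r ∧ ∀ v : E n, ‖v‖ ≤ r → ∃ L ∈ Prod.fst '' S, F v = L v := by
  have h1 : ∀ T ∈ S, ∀ᶠ v in 𝓝 (0 : E n), T.2 ≠ 0 → F v ≠ T.1 v + T.2 := by
    intro T _
    by_cases hT : T.2 = 0
    · exact Eventually.of_forall fun v h => absurd hT h
    · have h2 : Tendsto (fun v => F v - T.1 v) (𝓝 0) (𝓝 (F 0 - T.1 0)) :=
        (hF.sub T.1.continuous).tendsto 0
      rw [h0, map_zero, sub_zero] at h2
      have h3 := h2.eventually_ne (Ne.symm hT)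
      filter_upwards [h3] with v hv _ h4
      exact hv (by rw [h4]; abel)
  have h2 : ∀ᶠ v in 𝓝 (0 : E n), ∀ T ∈ S, T.2 ≠ 0 → F v ≠ T.1 v + T.2 :=
    (Filter.eventually_all_finite hS).2 h1
  have h3 : ∀ᶠ v in 𝓝 (0 : E n), ∃ L ∈ Prod.fst '' S, F v = L v := by
    filter_upwards [h, h2] with v hv hv2
    obtain ⟨T, hT, hv⟩ := hv
    by_cases hT2 : T.2 = 0
    · exact ⟨T.1, ⟨T, hT, rfl⟩, by rw [hv, hT2, add_zero]⟩
    · exact absurd hv (hv2 T hT hT2)
  obtain ⟨r, hr, h4⟩ := Metric.eventually_nhds_iff.1 h3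
  refine ⟨r / 2, by positivity, fun v hv => h4 ?_⟩
  rw [dist_zero_right]
  linarith

/-- a continuous selection of linear maps is homogeneous on balls -/
theorem homog_ball {n : ℕ} {F : E n → E n} (hF : Continuous F) (h0 : F 0 = 0)
    {S : Set (E n →L[ℝ] E n)} (hS : S.Finite) {r : ℝ}
    (h : ∀ v : E n, ‖v‖ ≤ r → ∃ L ∈ S, F v = L v) {v : E n} (hv : ‖v‖ ≤ r) {t : ℝ} (ht0 : 0 < t)
    (ht1 : t ≤ 1) : F (t • v) = t • F v := by
  have hfin : ((fun L : E n →L[ℝ] E n => L v) '' S).Finite := hS.image _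
  have hcont : ContinuousOn (fun s : ℝ => s⁻¹ • F (s • v)) (Set.Ioc 0 1) := by
    refine ContinuousOn.smul (ContinuousOn.inv₀ continuousOn_id fun s hs => hs.1.ne') ?_
    exact (hF.comp (continuous_id.smul continuous_const)).continuousOn
  have hmaps : Set.MapsTo (fun s : ℝ => s⁻¹ • F (s • v)) (Set.Ioc 0 1)
      ((fun L : E n →L[ℝ] E n => L v) '' S) := by
    intro s hs
    have h1 : ‖s • v‖ ≤ r := by
      rw [norm_smul, Real.norm_eq_abs, abs_of_pos hs.1]
      exact (mul_le_of_le_one_left (norm_nonneg v) hs.2).trans hv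
    obtain ⟨L, hL, h2⟩ := h _ h1
    refine ⟨L, hL, ?_⟩
    change L v = s⁻¹ • F (s • v)
    rw [h2, map_smul, smul_smul, inv_mul_cancel₀ hs.1.ne', one_smul]
  have h1 := isPreconnected_Ioc.constant_of_mapsTo hfin.isDiscrete hcont hmaps (x := t) (y := 1) ⟨ht0, ht1⟩
    ⟨by norm_num, le_rfl⟩
  simp only [inv_one, one_smul] at h1
  rw [← h1, smul_smul, mul_inv_cancel₀ ht0.ne', one_smul]

theorem main : S_Germ := by
  intro n h hPL p
  obtain ⟨F, hFd⟩ : ∃ F : E n → E n, F = fun v => h (p + v) - h p := ⟨_, rfl⟩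
  have hF : Continuous F := by
    rw [hFd]
    exact (h.continuous.comp (continuous_const.add continuous_id)).sub continuous_const
  have hF0 : F 0 = 0 := by rw [hFd]; simp
  have hFi : Function.Injective F := by
    intro v w hvw
    rw [hFd] at hvw
    have h1 : h (p + v) = h (p + w) := sub_left_injective hvw
    exact add_left_cancel (h.injective h1)
  -- the selection
  obtain ⟨S, hS, hPLp⟩ := hPL p
  have h1 : ∀ᶠ v in 𝓝 (0 : E n), ∃ T ∈ (fun T : (E n →L[ℝ] E n) × E n =>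
      (T.1, T.1 p + T.2 - h p)) '' S, F v = T.1 v + T.2 := by
    have ht : Tendsto (fun v : E n => p + v) (𝓝 0) (𝓝 p) := by
      have : Continuous (fun v : E n => p + v) := by fun_prop
      have h2 := this.tendsto 0
      rwa [add_zero] at h2
    filter_upwards [ht.eventually hPLp] with v hv
    obtain ⟨T, hT, hv⟩ := hv
    refine ⟨_, ⟨T, hT, rfl⟩, ?_⟩
    rw [hFd]
    simp only
    rw [hv, map_add]
    abel
  obtain ⟨r, hr, hsel⟩ := germ_sel hF hF0 (hS.image _) h1
  obtain ⟨S₀, hS₀d⟩ : ∃ S₀ : Set (E n →L[ℝ] E n), S₀ = Prod.fst ''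
      ((fun T : (E n →L[ℝ] E n) × E n => (T.1, T.1 p + T.2 - h p)) '' S) := ⟨_, rfl⟩
  have hS₀ : S₀.Finite := by rw [hS₀d]; exact (hS.image _).image _
  rw [← hS₀d] at hsel
  have hhom : ∀ v : E n, ‖v‖ ≤ r → ∀ t : ℝ, 0 < t → t ≤ 1 → F (t • v) = t • F v :=
    fun v hv t ht0 ht1 => homog_ball hF hF0 hS₀ hsel hv ht0 ht1
  -- the cone
  obtain ⟨c, hc⟩ : ∃ c : E n → ℝ, c = fun v => 1 + ‖v‖ / r := ⟨_, rfl⟩
  have hc1 : ∀ v, 1 ≤ c v := by
    intro v
    rw [hc]
    have : 0 ≤ ‖v‖ / r := by positivity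
    simp only
    linarith
  have hc0 : ∀ v, 0 < c v := fun v => lt_of_lt_of_le one_pos (hc1 v)
  have hcr : ∀ v, ‖v‖ ≤ c v * r := by
    intro v
    rw [hc]
    simp only
    rw [add_mul, div_mul_cancel₀ _ hr.ne']
    linarith
  have hcc : Continuous c := by
    rw [hc]
    exact continuous_const.add (continuous_norm.div_const r)
  obtain ⟨A, hA⟩ : ∃ A : E n → E n, A = fun v => c v • F ((c v)⁻¹ • v) := ⟨_, rfl⟩
  have hcomp : ∀ (v : E n) (a b : ℝ), 0 < a → a ≤ b → ‖v‖ ≤ a * r →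
      b • F (b⁻¹ • v) = a • F (a⁻¹ • v) := by
    intro v a b ha hab hva
    have hb : 0 < b := lt_of_lt_of_le ha hab
    have h2 : ‖a⁻¹ • v‖ ≤ r := by
      rw [norm_smul, Real.norm_eq_abs, abs_of_pos (inv_pos.2 ha), inv_mul_le_iff₀ ha]
      exact hva
    have h3 := hhom (a⁻¹ • v) h2 (a / b) (by positivity) ((div_le_one hb).2 hab)
    have h4 : (a / b) • a⁻¹ • v = b⁻¹ • v := by
      rw [smul_smul]
      congr 1
      field_simp
    rw [h4] at h3
    rw [h3, smul_smul]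
    congr 1
    field_simp
  have hkey : ∀ (v : E n) (a : ℝ), 0 < a → ‖v‖ ≤ a * r → A v = a • F (a⁻¹ • v) := by
    intro v a ha hva
    rw [hA]
    simp only
    rcases le_total a (c v) with h2 | h2
    · exact hcomp v a (c v) ha h2 hva
    · exact (hcomp v (c v) a (hc0 v) h2 (hcr v)).symm
  have hAF : ∀ v : E n, ‖v‖ ≤ r → A v = F v := by
    intro v hv
    have := hkey v 1 one_pos (by rw [one_mul]; exact hv)
    rw [this, one_smul, inv_one, one_smul]
  have hA0 : A 0 = 0 := by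
    rw [hAF 0 (by rw [norm_zero]; exact hr.le), hF0]
  have hAhom : Homog A := by
    intro a v ha
    rcases ha.eq_or_lt with h2 | h2
    · rw [← h2, zero_smul, zero_smul, hA0]
    · have h3 : ‖a • v‖ ≤ (a * c v) * r := by
        rw [norm_smul, Real.norm_eq_abs, abs_of_pos h2, mul_assoc]
        exact mul_le_mul_of_nonneg_left (hcr v) h2.le
      rw [hkey (a • v) (a * c v) (mul_pos h2 (hc0 v)) h3, hkey v (c v) (hc0 v) (hcr v), smul_smul,
        smul_smul]
      congr 3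
      have := (hc0 v).ne'
      field_simp
  have hAsel : LinSel A := by
    refine ⟨S₀, hS₀, fun v => ?_⟩
    have h2 : ‖(c v)⁻¹ • v‖ ≤ r := by
      rw [norm_smul, Real.norm_eq_abs, abs_of_pos (inv_pos.2 (hc0 v)), inv_mul_le_iff₀ (hc0 v)]
      exact hcr v
    obtain ⟨L, hL, h3⟩ := hsel _ h2
    refine ⟨L, hL, ?_⟩
    rw [hA]
    simp only
    rw [h3, map_smul, smul_smul, mul_inv_cancel₀ (hc0 v).ne', one_smul]
  have hAi : Function.Injective A := by
    intro v w hvw
    have ha : 0 < c v + c w := add_pos (hc0 v) (hc0 w)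
    have h2 : ‖v‖ ≤ (c v + c w) * r := by
      refine (hcr v).trans (mul_le_mul_of_nonneg_right ?_ hr.le)
      linarith [hc0 w]
    have h3 : ‖w‖ ≤ (c v + c w) * r := by
      refine (hcr w).trans (mul_le_mul_of_nonneg_right ?_ hr.le)
      linarith [hc0 v]
    rw [hkey v _ ha h2, hkey w _ ha h3] at hvw
    have h4 := hFi (smul_right_injective _ ha.ne' hvw)
    exact smul_right_injective _ (inv_pos.2 ha).ne' h4
  have hAc : Continuous A := by
    rw [hA]
    exact hcc.smul (hF.comp ((hcc.inv₀ fun v => (hc0 v).ne').smul continuous_id))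
  -- the inverse
  obtain ⟨G, hGd⟩ : ∃ G : E n → E n, G = fun y => h.symm (h p + y) - p := ⟨_, rfl⟩
  have hG : Continuous G := by
    rw [hGd]
    exact (h.symm.continuous.comp (continuous_const.add continuous_id)).sub continuous_const
  have hG0 : G 0 = 0 := by rw [hGd]; simp
  have hFG : ∀ y, F (G y) = y := by
    intro y
    rw [hFd, hGd]
    simp
  obtain ⟨r', hr', hGr⟩ : ∃ r' : ℝ, 0 < r' ∧ ∀ y : E n, ‖y‖ ≤ r' → ‖G y‖ ≤ r := by
    have h2 : ∀ᶠ y in 𝓝 (0 : E n), ‖G y‖ < r := by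
      have h3 : Tendsto (fun y => ‖G y‖) (𝓝 0) (𝓝 ‖G 0‖) := (continuous_norm.comp hG).tendsto 0
      rw [hG0, norm_zero] at h3
      exact h3.eventually (gt_mem_nhds hr)
    obtain ⟨s, hs, h4⟩ := Metric.eventually_nhds_iff.1 h2
    refine ⟨s / 2, by positivity, fun y hy => (h4 ?_).le⟩
    rw [dist_zero_right]
    linarith
  obtain ⟨d, hd⟩ : ∃ d : E n → ℝ, d = fun v => 1 + ‖v‖ / r' := ⟨_, rfl⟩
  have hd0 : ∀ v, 0 < d v := by
    intro v
    rw [hd]
    have : 0 ≤ ‖v‖ / r' := by positivity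
    simp only
    linarith
  have hdr : ∀ v, ‖(d v)⁻¹ • v‖ ≤ r' := by
    intro v
    rw [norm_smul, Real.norm_eq_abs, abs_of_pos (inv_pos.2 (hd0 v)), inv_mul_le_iff₀ (hd0 v)]
    rw [hd]
    simp only
    rw [add_mul, div_mul_cancel₀ _ hr'.ne']
    linarith
  have hdc : Continuous d := by
    rw [hd]
    exact continuous_const.add (continuous_norm.div_const r')
  obtain ⟨B, hB⟩ : ∃ B : E n → E n, B = fun y => d y • G ((d y)⁻¹ • y) := ⟨_, rfl⟩
  have hBc : Continuous B := by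
    rw [hB]
    exact hdc.smul (hG.comp ((hdc.inv₀ fun v => (hd0 v).ne').smul continuous_id))
  have hAB : ∀ y, A (B y) = y := by
    intro y
    rw [hB]
    simp only
    rw [hAhom _ _ (hd0 y).le, hAF _ (hGr _ (hdr y)), hFG, smul_smul,
      mul_inv_cancel₀ (hd0 y).ne', one_smul]
  have hBA : ∀ v, B (A v) = v := fun v => hAi (hAB (A v))
  refine ⟨{ toFun := A, invFun := B, left_inv := hBA, right_inv := hAB,
            continuous_toFun := hAc, continuous_invFun := hBc }, hAhom, hAsel, ?_⟩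
  refine Metric.eventually_nhds_iff.2 ⟨r, hr, fun v hv => ?_⟩
  rw [dist_zero_right] at hv
  change h (p + v) = h p + A v
  rw [hAF v hv.le, hFd]
  simp

end Pool.Agent.J6H35.PL
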