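import Pool.Agent.J6H9.PL.Stm2

/-!
# Module PL-MONO of project PL (helper9): piecewise linear approximation of a function which is
monotone in one coordinate
-/

set_option autoImplicit false

open Filter Topology
open Pool.Agent.J6H45.CoordRestr
open Pool.Agent.J6H9.PL

namespace Pool.Agent.J6H35.PL

theorem norm_le_sum_abs {n : ℕ} (v : E n) : ‖v‖ ≤ ∑ j, |v j| := by
  rw [EuclideanSpace.norm_eq]
  have h0 : 0 ≤ ∑ j, |v j| := Finset.sum_nonneg fun _ _ => abs_nonneg _
  refine Real.sqrt_le_iff.2 ⟨h0, ?_⟩
  rw [sq, Finset.sum_mul]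
  refine Finset.sum_le_sum fun j _ => ?_
  rw [Real.norm_eq_abs, sq]
  exact mul_le_mul_of_nonneg_left
    (Finset.single_le_sum (f := fun j => |v j|) (fun _ _ => abs_nonneg _) (Finset.mem_univ j))
    (abs_nonneg _)

theorem abs_le_norm {n : ℕ} (v : E n) (j : Fin n) : |v j| ≤ ‖v‖ := by
  have := PiLp.norm_apply_le v j
  rwa [Real.norm_eq_abs] at this

/-- the cone function -/
noncomputable def kk {n : ℕ} (i : Fin n) (z : E n) : ℝ :=
  ∑ j ∈ Finset.univ.erase i, |z j| + max (z i) 0

theorem kk_nonneg {n : ℕ} (i : Fin n) (z : E n) : 0 ≤ kk i z :=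
  add_nonneg (Finset.sum_nonneg fun _ _ => abs_nonneg _) (le_max_right _ _)

theorem kk_cont {n : ℕ} (i : Fin n) : Continuous (kk i) := by
  unfold kk
  refine Continuous.add (continuous_finsetSum _ fun j _ => ?_) ?_
  · fun_prop
  · fun_prop

theorem kk_le {n : ℕ} (i : Fin n) (z : E n) : kk i z ≤ n * ‖z‖ := by
  unfold kk
  have h1 : ∑ j ∈ Finset.univ.erase i, |z j| + max (z i) 0 ≤ ∑ j, |z j| := by
    rw [← Finset.sum_erase_add Finset.univ (fun j => |z j|) (Finset.mem_univ i)]
    have : max (z i) 0 ≤ |z i| := max_le (le_abs_self _) (abs_nonneg _)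
    linarith
  refine h1.trans ?_
  have h2 : ∑ j, |z j| ≤ ∑ _j : Fin n, ‖z‖ := Finset.sum_le_sum fun j _ => abs_le_norm z j
  refine h2.trans (le_of_eq ?_)
  simp

theorem kk_mono {n : ℕ} (i : Fin n) (z : E n) : Monotone fun s : ℝ => kk i (z + s • ee i) := by
  intro s t hst
  unfold kk
  refine add_le_add (le_of_eq ?_) ?_
  · refine Finset.sum_congr rfl fun j hj => ?_
    have hji : j ≠ i := (Finset.mem_erase.1 hj).1
    have : ∀ r : ℝ, (z + r • ee i) j = z j := by
      intro r
      simp [hji]
    simp only [this]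
  · have : ∀ r : ℝ, (z + r • ee i) i = z i + r := by
      intro r
      simp
    simp only [this]
    exact max_le_max (by linarith) le_rfl

/-- linear forms with the coefficients `0, 1, -1` -/
noncomputable def lin {n : ℕ} (τ : Fin n → SignType) : E n →L[ℝ] ℝ :=
  ∑ j, ((τ j : SignType) : ℝ) • (EuclideanSpace.proj j : E n →L[ℝ] ℝ)

theorem kk_lin {n : ℕ} (i : Fin n) (z : E n) : ∃ τ : Fin n → SignType, kk i z = lin τ z := by
  refine ⟨fun j => if j = i then (if 0 ≤ z i then 1 else 0) else SignType.sign (z j), ?_⟩
  unfold lin kk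
  rw [sum_apply,
    ← Finset.sum_erase_add Finset.univ _ (Finset.mem_univ i)]
  congr 1
  · refine Finset.sum_congr rfl fun j hj => ?_
    have hji : j ≠ i := (Finset.mem_erase.1 hj).1
    simp only [if_neg hji]
    change |z j| = ((SignType.sign (z j) : SignType) : ℝ) * z j
    exact (sign_mul_self (z j)).symm
  · simp only [if_true]
    change max (z i) 0 = (((if 0 ≤ z i then 1 else 0 : SignType)) : ℝ) * z i
    by_cases h : 0 ≤ z i
    · rw [if_pos h, max_eq_left h]; simp
    · rw [if_neg h, max_eq_right (not_le.1 h).le]; simp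

theorem mono : S_Mono := by
  intro n i F hF hmono R' ε hε
  classical
  -- a nonnegative radius
  obtain ⟨R, hR, hRR⟩ : ∃ R : ℝ, 0 ≤ R ∧ R' ≤ R := ⟨max R' 0, le_max_right _ _, le_max_left _ _⟩
  suffices H : ∃ G : E n → ℝ, Continuous G ∧ (∀ x : E n, Monotone fun s : ℝ => G (x + s • ee i)) ∧
    (∃ S : Set ((E n →L[ℝ] ℝ) × ℝ), S.Finite ∧ ∀ x, ∃ T ∈ S, G x = T.1 x + T.2) ∧
    ∀ x ∈ Metric.closedBall (0 : E n) R, |G x - F x| ≤ ε by
    obtain ⟨G, h1, h2, h3, h4⟩ := H
    exact ⟨G, h1, h2, h3, fun x hx => h4 x (Metric.closedBall_subset_closedBall hRR hx)⟩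
  -- constants
  obtain ⟨M0, hM0⟩ := (isCompact_closedBall (0 : E n) (R + 3)).exists_bound_of_continuousOn
    hF.continuousOn
  obtain ⟨M, hM1, hM⟩ : ∃ M : ℝ, 1 ≤ M ∧ ∀ x ∈ Metric.closedBall (0 : E n) (R + 3), |F x| ≤ M :=
    ⟨max M0 1, le_max_right _ _, fun x hx => (hM0 x hx).trans (le_max_left _ _)⟩
  have huc := (isCompact_closedBall (0 : E n) (R + 3)).uniformContinuousOn_of_continuous
    hF.continuousOn
  rw [Metric.uniformContinuousOn_iff] at huc
  obtain ⟨ω0, hω0, huc⟩ := huc (ε / 4) (by positivity)
  obtain ⟨ω, hω, hω1, hωω⟩ : ∃ ω : ℝ, 0 < ω ∧ ω ≤ 1 ∧ ω < ω0 :=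
    ⟨min 1 (ω0 / 2), by positivity, min_le_left _ _, by
      refine (min_le_right _ _).trans_lt ?_
      linarith⟩
  have huc' : ∀ x ∈ Metric.closedBall (0 : E n) (R + 3),
      ∀ y ∈ Metric.closedBall (0 : E n) (R + 3), dist x y ≤ ω → |F x - F y| ≤ ε / 4 := by
    intro x hx y hy hxy
    have := huc x hx y hy (by linarith)
    rw [Real.dist_eq] at this
    exact this.le
  obtain ⟨K, hK⟩ : ∃ K : ℝ, K = 2 * M * (n + 1) / ω := ⟨_, rfl⟩
  have hn0 : (0 : ℝ) ≤ n := Nat.cast_nonneg n
  have hK0 : 0 < K := by rw [hK]; positivity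
  obtain ⟨d, hd0, hdω, hd⟩ : ∃ d : ℝ, 0 < d ∧ d ≤ ω ∧ K * (n * d) ≤ ε / 4 := by
    refine ⟨min ω (ε / (4 * K * (n + 1))), by positivity, min_le_left _ _, ?_⟩
    have h1 : min ω (ε / (4 * K * (n + 1))) ≤ ε / (4 * K * (n + 1)) := min_le_right _ _
    calc K * (n * min ω (ε / (4 * K * (n + 1)))) ≤ K * ((n + 1) * (ε / (4 * K * (n + 1)))) := by
          refine mul_le_mul_of_nonneg_left ?_ hK0.le
          exact mul_le_mul (by linarith) h1 (by positivity) (by positivity)
      _ = ε / 4 := by field_simp
  obtain ⟨t, htb, htf, htc⟩ := (isCompact_closedBall (0 : E n) R).finite_cover_balls hd0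
  obtain ⟨Y, hY⟩ : ∃ Y : Finset (E n), (Y : Set (E n)) = t := ⟨htf.toFinset, htf.coe_toFinset⟩
  have hYb : ∀ y ∈ Y, ‖y‖ ≤ R := by
    intro y hy
    have h1 : y ∈ t := by rw [← hY]; exact hy
    have := htb h1
    rwa [mem_closedBall_zero_iff] at this
  have hYc : ∀ x : E n, ‖x‖ ≤ R → ∃ y ∈ Y, dist x y < d := by
    intro x hx
    have h1 := htc (mem_closedBall_zero_iff.2 hx)
    simp only [Set.mem_iUnion, Metric.mem_ball] at h1
    obtain ⟨y, hy, hxy⟩ := h1
    refine ⟨y, ?_, hxy⟩
    have : y ∈ (Y : Set (E n)) := by rw [hY]; exact hy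
    exact this
  have hYne : Y.Nonempty := by
    obtain ⟨y, hy, _⟩ := hYc 0 (by rw [norm_zero]; exact hR)
    exact ⟨y, hy⟩
  have hball : ∀ x : E n, ‖x‖ ≤ R + 3 → x ∈ Metric.closedBall (0 : E n) (R + 3) :=
    fun x hx => mem_closedBall_zero_iff.2 hx
  refine ⟨fun x => Y.inf' hYne fun y => F y + K * kk i (x - y), ?_, ?_, ?_, ?_⟩
  · refine Continuous.finset_inf'_apply hYne fun y _ => ?_
    exact continuous_const.add (continuous_const.mul ((kk_cont i).comp
      (continuous_id.sub continuous_const)))
  · intro x s u hsu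
    refine Finset.le_inf' _ _ fun y hy => ?_
    refine (Finset.inf'_le _ hy).trans ?_
    have h1 := kk_mono i (x - y) hsu
    simp only at h1
    have e : ∀ r : ℝ, x + r • ee i - y = x - y + r • ee i := fun r => by abel
    rw [e, e]
    have := mul_le_mul_of_nonneg_left h1 hK0.le
    linarith
  · refine ⟨(fun p : E n × (Fin n → SignType) =>
      (K • lin p.2, F p.1 - K * lin p.2 p.1)) '' ((Y : Set (E n)) ×ˢ Set.univ), ?_, ?_⟩
    · exact (Y.finite_toSet.prod Set.finite_univ).image _
    · intro x
      obtain ⟨y, hy, hye⟩ := Finset.exists_mem_eq_inf' hYne fun y => F y + K * kk i (x - y)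
      obtain ⟨τ, hτ⟩ := kk_lin i (x - y)
      refine ⟨_, ⟨(y, τ), ⟨hy, Set.mem_univ _⟩, rfl⟩, ?_⟩
      simp only
      rw [hye, hτ, map_sub, smul_apply, smul_eq_mul]
      ring
  · intro x hx
    rw [mem_closedBall_zero_iff] at hx
    rw [abs_le]
    constructor
    · -- lower bound
      have h1 : F x - ε / 2 ≤ Y.inf' hYne fun y => F y + K * kk i (x - y) := by
        refine Finset.le_inf' _ _ fun y hy => ?_
        have hyR := hYb y hy
        have hFx := hM x (hball x (by linarith))
        have hFy := hM y (hball y (by linarith))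
        rw [abs_le] at hFx hFy
        by_cases hc : 2 * M ≤ K * kk i (x - y)
        · linarith
        · push Not at hc
          obtain ⟨z, hz⟩ : ∃ z, z = x - y := ⟨_, rfl⟩
          rw [← hz] at hc ⊢
          have hkz : kk i z ≤ ω := by
            have h2 : kk i z < ω / (n + 1) := by
              rw [hK] at hc
              rw [lt_div_iff₀ (by positivity)]
              have h3 : 2 * M * (n + 1) / ω * kk i z = 2 * M * (kk i z * (n + 1) / ω) := by ring
              rw [h3] at hc
              have h4 : kk i z * (n + 1) / ω < 1 := by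
                by_contra h5
                push Not at h5
                have : 2 * M * 1 ≤ 2 * M * (kk i z * (n + 1) / ω) :=
                  mul_le_mul_of_nonneg_left h5 (by positivity)
                linarith
              rwa [div_lt_one hω] at h4
            have h3 : ω / (n + 1) ≤ ω := div_le_self hω.le (by linarith)
            linarith
          have hkz0 := kk_nonneg i z
          obtain ⟨x', hx'⟩ : ∃ x' : E n, x' = y + (z i) • ee i := ⟨_, rfl⟩
          have hxx' : dist x x' ≤ ω := by
            rw [dist_eq_norm]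
            refine (norm_le_sum_abs _).trans ?_
            rw [← Finset.sum_erase_add Finset.univ _ (Finset.mem_univ i)]
            have e1 : (x - x') i = 0 := by
              rw [hx', hz]
              simp
            have e2 : ∀ j ∈ Finset.univ.erase i, |(x - x') j| = |z j| := by
              intro j hj
              have hji : j ≠ i := (Finset.mem_erase.1 hj).1
              rw [hx', hz]
              simp [hji]
            rw [e1, abs_zero, add_zero, Finset.sum_congr rfl e2]
            refine le_trans ?_ hkz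
            unfold kk
            have := le_max_right (z i) 0
            linarith
          have hx'n : ‖x'‖ ≤ R + 3 := by
            have h2 : ‖x'‖ ≤ ‖x‖ + dist x x' := by
              rw [dist_comm, dist_eq_norm]
              have := norm_add_le x (x' - x)
              rw [add_sub_cancel] at this
              exact this
            linarith
          have h2 := huc' x (hball x (by linarith)) x' (hball x' hx'n) hxx'
          rw [abs_le] at h2
          have h3 : F x' ≤ F y + ε / 4 := by
            rcases le_or_gt (z i) 0 with hzi | hzi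
            · have h4 := hmono y hzi
              simp only [zero_smul, add_zero] at h4
              rw [hx']
              linarith
            · have h4 : dist x' y ≤ ω := by
                rw [hx', dist_eq_norm, add_sub_cancel_left, norm_smul, Real.norm_eq_abs,
                  abs_of_pos hzi]
                have h5 : ‖(ee i : E n)‖ = 1 := by simp
                rw [h5, mul_one]
                refine le_trans ?_ hkz
                unfold kk
                have h6 : 0 ≤ ∑ j ∈ Finset.univ.erase i, |z j| :=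
                  Finset.sum_nonneg fun _ _ => abs_nonneg _
                have := le_max_left (z i) 0
                linarith
              have h5 := huc' x' (hball x' hx'n) y (hball y (by linarith)) h4
              rw [abs_le] at h5
              linarith
          have h4 : 0 ≤ K * kk i z := by positivity
          linarith
      linarith
    · -- upper bound
      obtain ⟨y, hy, hxy⟩ := hYc x hx
      have h1 : (Y.inf' hYne fun y => F y + K * kk i (x - y)) ≤ F y + K * kk i (x - y) :=
        Finset.inf'_le _ hy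
      have h2 := huc' x (hball x (by linarith)) y (hball y (by linarith [hYb y hy]))
        (by linarith)
      rw [abs_le] at h2
      have h3 : K * kk i (x - y) ≤ ε / 4 := by
        refine le_trans ?_ hd
        refine mul_le_mul_of_nonneg_left ((kk_le i (x - y)).trans ?_) hK0.le
        rw [← dist_eq_norm]
        exact mul_le_mul_of_nonneg_left hxy.le hn0
      linarith

end Pool.Agent.J6H35.PL
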